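import Pool.Agent.X189.HN.TC

set_option autoImplicit false

/-!
A uniquely ergodic Heisenberg nilflow with a smooth, measurably non-trivial time-change which is
not weakly mixing, hence not mixing.

`Heis` is the real Heisenberg group, `Gam` its integer lattice, `M = Γ \ G` the Heisenberg
nilmanifold, `mk : Heis → M` the projection, `pt x y z` the group element with coordinates
`x, y, z`, `mu` the normalised Haar measure of `M`, `R h` the right translation by `h`.
-/

namespace Pool.Agent.Results.MP_442888_an.NotWeaklyMixing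

open MeasureTheory Set Filter Topology Pool.Agent.X189.HN
open scoped ENNReal

/-- The one-parameter subgroup `exp (t X)`, `X = (1, θ, 0)`, of the Heisenberg group: the matrix
exponential of `t` times the strictly upper triangular matrix with entries `1, θ` next to the
diagonal and `0` in the corner. -/
noncomputable def expX (θ t : ℝ) : Heis := pt t (t * θ) (t * (t * θ) / 2)

/-- The nilflow `φ_t (Γ g) = Γ g exp (t X)`. -/
noncomputable def nilflow (θ t : ℝ) : M → M := R (expX θ t)

/-- `α` is a smooth function on `M`: its lift to `ℝ³` is smooth. -/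
def IsSmooth (α : M → ℝ) : Prop :=
  ContDiff ℝ (⊤ : ℕ∞) fun q : ℝ × ℝ × ℝ => α (mk (pt q.1 q.2.1 q.2.2))

/-- The function `α` is measurably cohomologous to a constant. -/
def MeasurablyTrivial (θ : ℝ) (α : M → ℝ) : Prop :=
  ∃ (c : ℝ) (u : M → ℝ), AEMeasurable u mu ∧ ∀ t : ℝ, ∀ᵐ x ∂mu,
    u (nilflow θ t x) - u x = ∫ s in (0 : ℝ)..t, (α (nilflow θ s x) - c)

/-- `ψ` is the flow generated by `X / α`: `ψ_t x = φ_{s(t,x)} x` where `s(·, x)` solves
`ds/dt = 1 / α (φ_s x)`, `s(0, x) = 0`. -/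
def IsTimeChange (θ : ℝ) (α : M → ℝ) (ψ : ℝ → M → M) : Prop :=
  ∃ s : ℝ → M → ℝ, ∀ x, s 0 x = 0 ∧
    (∀ t, HasDerivAt (fun t => s t x) (1 / α (nilflow θ (s t x) x)) t) ∧
    ∀ t, ψ t x = nilflow θ (s t x) x

/-- The probability measure proportional to `α dμ`. -/
noncomputable def tcMeasure (α : M → ℝ) : Measure M :=
  (∫⁻ x, ENNReal.ofReal (α x) ∂mu)⁻¹ • mu.withDensity fun x => ENNReal.ofReal (α x)

/-- Mixing of the flow `ψ` for `ν`. -/
def Mixing (ψ : ℝ → M → M) (ν : Measure M) : Prop :=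
  ∀ A B : Set M, MeasurableSet A → MeasurableSet B →
    Tendsto (fun t : ℝ => ν.real (ψ t '' A ∩ B)) atTop (𝓝 (ν.real A * ν.real B))

/-- Weak mixing of the flow `ψ` for `ν`. -/
def WeaklyMixing (ψ : ℝ → M → M) (ν : Measure M) : Prop :=
  ∀ A B : Set M, MeasurableSet A → MeasurableSet B →
    Tendsto (fun t : ℝ => 1 / t * ∫ s in (0 : ℝ)..t, |ν.real (ψ s '' A ∩ B) - ν.real A * ν.real B|)
      atTop (𝓝 0)

theorem expX_eq (θ t : ℝ) : expX θ t = expH (t * 1) (t * θ) (t * 0) := by
  apply Heis.ext' <;> simp [expX, expH]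

theorem nilflow_eq (θ t : ℝ) : nilflow θ t = phi θ t := by
  rw [nilflow, phi, expX_eq]

/-! ### The eigenfunction argument -/

variable (d : D)

theorem fm_psi {x : M} (hx : x ∈ d.good) (t : ℝ) : d.Fm (d.psi t x) = cc t + d.Fm x := by
  have h1 : d.psi t x ∈ d.good := d.good_phi hx _
  have e1 : d.Fm (d.psi t x) = d.F (d.psi t x) := if_pos h1
  have e2 : d.Fm x = d.F x := if_pos hx
  rw [e1, e2]
  have := d.F_phi hx (d.sig t x)
  rw [d.tau_sig] at this
  exact this

theorem good_ae_nu : ∀ᵐ x ∂d.nu, x ∈ d.good := d.nu_ac d.good_ae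

theorem map_Fm : d.nu.map d.Fm = volume := by
  have : IsProbabilityMeasure (d.nu.map d.Fm) :=
    Measure.isProbabilityMeasure_map d.meas_Fm.aemeasurable
  refine unif fun s => ?_
  have hc : Continuous fun w : UnitAddCircle => cc s + w := by fun_prop
  rw [Measure.map_map hc.measurable d.meas_Fm]
  have h1 : (fun w => cc s + w) ∘ d.Fm =ᵐ[d.nu] d.Fm ∘ d.psi s := by
    filter_upwards [good_ae_nu d] with x hx
    exact (fm_psi d hx s).symm
  rw [Measure.map_congr h1, ← Measure.map_map d.meas_Fm (d.cpsi s).measurable,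
    (d.psi_mp s).map_eq]

/-- the test set -/
def test : Set M := d.good ∩ d.Fm ⁻¹' arc 0 (1 / 2)

theorem meas_test : MeasurableSet (test d) :=
  d.meas_good.inter (d.meas_Fm (isOpen_arc _ _).measurableSet)

theorem nu_good_inter {a b : ℝ} (ha : 0 ≤ a) (hb : b ≤ 1) :
    d.nu (d.good ∩ d.Fm ⁻¹' arc a b) = ENNReal.ofReal (b - a) := by
  have h1 : d.nu (d.good ∩ d.Fm ⁻¹' arc a b) = d.nu (d.Fm ⁻¹' arc a b) := by
    refine measure_congr ?_
    filter_upwards [good_ae_nu d] with x hx
    apply propext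
    exact ⟨fun h => h.2, fun h => ⟨hx, h⟩⟩
  rw [h1, ← Measure.map_apply d.meas_Fm (isOpen_arc _ _).measurableSet, map_Fm, vol_arc ha hb]

theorem real_test : d.nu.real (test d) = 1 / 2 := by
  rw [Measure.real, test, nu_good_inter d le_rfl (by norm_num), ENNReal.toReal_ofReal (by norm_num)]
  norm_num

theorem image_eq (s : ℝ) (A : Set M) : d.psi s '' A = d.psi (-s) ⁻¹' A := by
  ext x
  constructor
  · rintro ⟨y, hy, rfl⟩
    show d.psi (-s) (d.psi s y) ∈ A
    rw [d.psi_psi, add_neg_cancel, d.psi_zero]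
    exact hy
  · intro hx
    refine ⟨d.psi (-s) x, hx, ?_⟩
    rw [d.psi_psi, neg_add_cancel, d.psi_zero]

/-- the self-correlation of the test set -/
noncomputable def corr (s : ℝ) : ℝ := d.nu.real (d.psi s '' test d ∩ test d)

theorem corr_ge {s : ℝ} {k : ℕ} (h1 : (k : ℝ) ≤ s) (h2 : s ≤ k + 1 / 8) : 3 / 8 ≤ corr d s := by
  have hsub : d.good ∩ d.Fm ⁻¹' arc (1 / 8) (1 / 2) ⊆ d.psi s '' test d ∩ test d := by
    rintro x ⟨hx, u, ⟨hu1, hu2⟩, hu⟩
    refine ⟨?_, hx, u, ⟨by linarith, hu2⟩, hu⟩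
    rw [image_eq]
    refine ⟨d.good_phi hx _, ?_⟩
    show d.Fm (d.psi (-s) x) ∈ arc 0 (1 / 2)
    rw [fm_psi d hx, ← hu, ← cc_add]
    refine ⟨u - (s - k), ⟨by linarith, by linarith⟩, ?_⟩
    rw [cc_eq_iff]
    exact ⟨k, by push_cast; ring⟩
  have h3 := measure_mono (μ := d.nu) hsub
  rw [nu_good_inter d (by norm_num) (by norm_num)] at h3
  have h4 := ENNReal.toReal_mono (measure_ne_top _ _) h3
  rw [ENNReal.toReal_ofReal (by norm_num)] at h4
  unfold corr Measure.real
  linarith

theorem meas_corr : Measurable (corr d) := by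
  have hm : Continuous fun q : ℝ × M => d.psi (-q.1) q.2 := by
    have h1 : Continuous fun q : ℝ × M => ((-q.1, q.2) : ℝ × M) :=
      continuous_fst.neg.prodMk continuous_snd
    have h2 := d.psi_cont.comp h1
    exact h2
  have hS : MeasurableSet {q : ℝ × M | d.psi (-q.1) q.2 ∈ test d ∧ q.2 ∈ test d} :=
    (hm.measurable (meas_test d)).inter (measurable_snd (meas_test d))
  have h1 : Measurable fun s : ℝ =>
      d.nu (Prod.mk s ⁻¹' {q : ℝ × M | d.psi (-q.1) q.2 ∈ test d ∧ q.2 ∈ test d}) :=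
    measurable_measure_prodMk_left hS
  have h2 : corr d = fun s : ℝ =>
      (d.nu (Prod.mk s ⁻¹' {q : ℝ × M | d.psi (-q.1) q.2 ∈ test d ∧ q.2 ∈ test d})).toReal := by
    funext s
    unfold corr Measure.real
    rw [image_eq]
    rfl
  rw [h2]
  exact h1.ennreal_toReal

theorem corr_bound (s : ℝ) : |corr d s - 1 / 4| ≤ 1 := by
  have h1 : 0 ≤ corr d s := measureReal_nonneg
  have h2 : corr d s ≤ 1 := measureReal_le_one
  rw [abs_le]
  constructor <;> linarith

theorem int_corr (a b : ℝ) : IntervalIntegrable (fun s => |corr d s - 1 / 4|) volume a b := by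
  have hm : Measurable fun s => |corr d s - 1 / 4| := ((meas_corr d).sub_const _).abs
  have h1 : IntervalIntegrable (fun _ : ℝ => (1 : ℝ)) volume a b := intervalIntegrable_const
  refine h1.mono_fun hm.aestronglyMeasurable (Eventually.of_forall fun s => ?_)
  show ‖|corr d s - 1 / 4|‖ ≤ ‖(1 : ℝ)‖
  rw [norm_one, Real.norm_eq_abs, abs_abs]
  exact corr_bound d s

theorem cesaro (N : ℕ) : (N : ℝ) / 64 ≤ ∫ s in (0 : ℝ)..N, |corr d s - 1 / 4| := by
  induction N with
  | zero => simp
  | succ N ih =>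
    have e1 := intervalIntegral.integral_add_adjacent_intervals (int_corr d 0 N)
      (int_corr d N (N + 1 / 8))
    have e2 := intervalIntegral.integral_add_adjacent_intervals (int_corr d 0 (N + 1 / 8))
      (int_corr d (N + 1 / 8) ((N + 1 : ℕ) : ℝ))
    have h1 : (1 : ℝ) / 64 ≤ ∫ s in (N : ℝ)..(N + 1 / 8), |corr d s - 1 / 4| := by
      have h2 : ∫ _ in (N : ℝ)..(N + 1 / 8), (1 / 8 : ℝ) = 1 / 64 := by
        rw [intervalIntegral.integral_const]
        simp only [smul_eq_mul]
        ring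
      rw [← h2]
      refine intervalIntegral.integral_mono_on (by linarith) intervalIntegrable_const
        (int_corr d _ _) fun s hs => ?_
      have h3 := corr_ge d hs.1 hs.2
      rw [le_abs]
      left
      linarith
    have h2 : 0 ≤ ∫ s in (N + 1 / 8 : ℝ)..((N + 1 : ℕ) : ℝ), |corr d s - 1 / 4| :=
      intervalIntegral.integral_nonneg (by push_cast; linarith) fun s _ => abs_nonneg _
    have e3 : (((N + 1 : ℕ) : ℝ)) / 64 = (N : ℝ) / 64 + 1 / 64 := by push_cast; ring
    rw [e3]
    linarith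

theorem not_weaklyMixing : ¬ WeaklyMixing d.psi d.nu := by
  intro h
  have h1 := h (test d) (test d) (meas_test d) (meas_test d)
  have h2 := h1.comp tendsto_natCast_atTop_atTop
  have h3 : ∀ᶠ N : ℕ in atTop, (1 : ℝ) / 64 ≤ ((fun t : ℝ => 1 / t * ∫ s in (0 : ℝ)..t,
      |d.nu.real (d.psi s '' test d ∩ test d) - d.nu.real (test d) * d.nu.real (test d)|) ∘
      (Nat.cast : ℕ → ℝ)) N := by
    filter_upwards [eventually_gt_atTop 0] with N hN
    have hN0 : (0 : ℝ) < N := by exact_mod_cast hN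
    simp only [Function.comp, real_test]
    have h4 := cesaro d N
    have e : ∀ s, d.nu.real (d.psi s '' test d ∩ test d) - 1 / 2 * (1 / 2) = corr d s - 1 / 4 := by
      intro s
      unfold corr
      ring
    simp only [e]
    rw [one_div_mul_eq_div, le_div_iff₀ hN0]
    linarith
  have h4 := ge_of_tendsto h2 h3
  norm_num at h4

theorem not_mixing : ¬ Mixing d.psi d.nu := by
  intro h
  have h1 := h (test d) (test d) (meas_test d) (meas_test d)
  have h2 := h1.comp tendsto_natCast_atTop_atTop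
  have h3 : ∀ N : ℕ, (3 : ℝ) / 8 ≤ ((fun t : ℝ => d.nu.real (d.psi t '' test d ∩ test d)) ∘
      (Nat.cast : ℕ → ℝ)) N := by
    intro N
    exact corr_ge d (k := N) le_rfl (by linarith)
  have h4 := ge_of_tendsto' h2 h3
  rw [real_test] at h4
  norm_num at h4

theorem timeChange_psi : IsTimeChange d.th d.alp d.psi := by
  refine ⟨d.sig, fun x => ⟨d.sig_eq (d.tau_zero x), fun t => ?_, fun t => ?_⟩⟩
  · rw [nilflow_eq]
    exact d.sig_deriv t x
  · rw [nilflow_eq]
    rfl

theorem timeChange_unique {ψ : ℝ → M → M} (h : IsTimeChange d.th d.alp ψ) : ψ = d.psi := by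
  obtain ⟨s, hs⟩ := h
  funext t x
  obtain ⟨h0, h1, h2⟩ := hs x
  have h3 : ∀ t, HasDerivAt (fun t => d.tau (s t x) x - t) 0 t := by
    intro t
    have e1 := (d.tau_deriv x (s t x)).comp t (h1 t)
    rw [nilflow_eq] at e1
    have e2 : d.alp (phi d.th (s t x) x) * (1 / d.alp (phi d.th (s t x) x)) = 1 := by
      have := (d.alp_pos (phi d.th (s t x) x)).ne'
      field_simp
    rw [e2] at e1
    have e3 := e1.sub (hasDerivAt_id t)
    rw [sub_self] at e3
    exact e3
  have h4 : d.tau (s t x) x - t = d.tau (s 0 x) x - 0 :=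
    is_const_of_deriv_eq_zero (fun t => (h3 t).differentiableAt) (fun t => (h3 t).deriv) t 0
  rw [h0, d.tau_zero] at h4
  have h5 : d.sig t x = s t x := d.sig_eq (by linarith)
  rw [h2 t, nilflow_eq, D.psi, h5]

/-- There is a uniquely ergodic Heisenberg nilflow `φ` (generated by a non-central `X`) and a
smooth positive function `α` on the Heisenberg nilmanifold, not measurably cohomologous to a
constant, such that the flow generated by `X / α` (which exists, is unique, and preserves the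
probability measure proportional to `α dμ`) is not weakly mixing and not mixing. -/
theorem result : ∃ θ : ℝ,
    -- `X` is not central
    (∀ t : ℝ, t ≠ 0 → ∃ g : Heis, g * expX θ t ≠ expX θ t * g) ∧
    -- unique ergodicity
    (∀ m : Measure M, IsProbabilityMeasure m → ((∀ t, m.map (nilflow θ t) = m) ↔ m = mu)) ∧
    ∃ α : M → ℝ, IsSmooth α ∧ (∀ x, 0 < α x) ∧ ¬ MeasurablyTrivial θ α ∧
      (∃ ψ : ℝ → M → M, IsTimeChange θ α ψ) ∧
      ∀ ψ : ℝ → M → M, IsTimeChange θ α ψ →
        (∀ t, MeasurePreserving (ψ t) (tcMeasure α) (tcMeasure α)) ∧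
        ¬ WeaklyMixing ψ (tcMeasure α) ∧ ¬ Mixing ψ (tcMeasure α) := by
  obtain ⟨d⟩ := exists_D
  refine ⟨d.th, fun t ht => ?_, fun m hm => ⟨fun h => ?_, fun h t => ?_⟩, d.alp, d.contDiff_alp,
    d.alp_pos, ?_, ⟨d.psi, timeChange_psi d⟩, fun ψ hψ => ?_⟩
  · refine ⟨pt 0 1 0, fun h => ?_⟩
    have h1 := congrArg (fun g : Heis => g.2.2) h
    simp [expX] at h1
    exact ht h1
  · refine uniquely_ergodic d.irrational m fun t => ?_
    rw [← nilflow_eq]
    exact h t
  · rw [h, nilflow_eq]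
    exact (mp_phi d.th t).map_eq
  · rintro ⟨c, u, hu, h⟩
    refine d.nontrivial c hu fun t => ?_
    have := h t
    simp only [nilflow_eq] at this
    exact this
  · rw [timeChange_unique d hψ]
    exact ⟨d.psi_mp, not_weaklyMixing d, not_mixing d⟩

end Pool.Agent.Results.MP_442888_an.NotWeaklyMixing
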